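import Pool.Agent.H11.ZDE.Stmts

/-!
# Module PD of the project ZDE: the Coxeter matrices of types A, D, E are positive definite
-/

set_option autoImplicit false

namespace Pool.Agent.H11.ZDE

section gen

variable {B : Type*} [Fintype B] [DecidableEq B] (M : CoxeterMatrix B)

omit [Fintype B] in
theorem cart_symm (i j : B) : cart M i j = cart M j i := by
  unfold cart
  rw [M.symmetric i j]
  by_cases h : i = j
  · rw [if_pos h, if_pos h.symm]
  · rw [if_neg h, if_neg (Ne.symm h)]

omit [Fintype B] in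
theorem cart_nonpos {i j : B} (h : i ≠ j) : cart M i j ≤ 0 := by
  unfold cart
  rw [if_neg h]
  split_ifs <;> norm_num

/-- Criterion: a positive vector with positive image. -/
theorem posDef_of_vec (sl : ∀ i j, i ≠ j → M i j = 2 ∨ M i j = 3) (v : B → ℤ) (hv : ∀ i, 0 < v i)
    (hc : ∀ i, 0 < ∑ j, cart M i j * v j) : PosDef M := by
  refine ⟨sl, fun a ha => ?_⟩
  have hvq : ∀ i, (0 : ℚ) < v i := fun i => by exact_mod_cast hv i
  set x : B → ℚ := fun i => a i / v i with hx
  have hax : ∀ i, (a i : ℚ) = v i * x i := fun i => by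
    rw [hx]
    field_simp [(hvq i).ne']
  have key : ((∑ i, ∑ j, cart M i j * a i * a j : ℤ) : ℚ) =
      ∑ i, x i ^ 2 * v i * ((∑ j, cart M i j * v j : ℤ) : ℚ) +
      (1 / 2) * ∑ i, ∑ j, (-(cart M i j : ℚ)) * v i * v j * (x i - x j) ^ 2 := by
    have e1 : ∑ i, x i ^ 2 * v i * ((∑ j, cart M i j * v j : ℤ) : ℚ) =
        ∑ i, ∑ j, (cart M i j : ℚ) * v i * v j * x i ^ 2 := by
      refine Finset.sum_congr rfl fun i _ => ?_
      push_cast
      rw [Finset.mul_sum]
      refine Finset.sum_congr rfl fun j _ => ?_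
      ring
    have e2 : ∑ i, ∑ j, (cart M i j : ℚ) * v i * v j * x i ^ 2 =
        ∑ i, ∑ j, (cart M i j : ℚ) * v i * v j * x j ^ 2 := by
      rw [Finset.sum_comm]
      refine Finset.sum_congr rfl fun i _ => Finset.sum_congr rfl fun j _ => ?_
      rw [cart_symm M j i]
      ring
    have e3 : ∑ i, ∑ j, (-(cart M i j : ℚ)) * v i * v j * (x i - x j) ^ 2 =
        2 * ((∑ i, ∑ j, cart M i j * a i * a j : ℤ) : ℚ)
        - ∑ i, ∑ j, (cart M i j : ℚ) * v i * v j * x i ^ 2
        - ∑ i, ∑ j, (cart M i j : ℚ) * v i * v j * x j ^ 2 := by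
      push_cast
      rw [Finset.mul_sum, ← Finset.sum_sub_distrib, ← Finset.sum_sub_distrib]
      refine Finset.sum_congr rfl fun i _ => ?_
      rw [Finset.mul_sum, ← Finset.sum_sub_distrib, ← Finset.sum_sub_distrib]
      refine Finset.sum_congr rfl fun j _ => ?_
      rw [hax i, hax j]
      ring
    rw [e3, e1, ← e2]
    ring
  have h2 : 0 ≤ (1 / 2 : ℚ) * ∑ i, ∑ j, (-(cart M i j : ℚ)) * v i * v j * (x i - x j) ^ 2 := by
    refine mul_nonneg (by norm_num) (Finset.sum_nonneg fun i _ => Finset.sum_nonneg fun j _ => ?_)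
    by_cases h : i = j
    · rw [h]
      simp
    · have : (0 : ℚ) ≤ -(cart M i j : ℚ) := by
        have := cart_nonpos M h
        have h' : ((cart M i j : ℤ) : ℚ) ≤ 0 := by exact_mod_cast this
        linarith
      have h3 := (hvq i).le
      have h4 := (hvq j).le
      positivity
  have h1 : (0 : ℚ) < ∑ i, x i ^ 2 * v i * ((∑ j, cart M i j * v j : ℤ) : ℚ) := by
    obtain ⟨k, hk⟩ : ∃ k, a k ≠ 0 := by
      by_contra hne
      push Not at hne
      exact ha (funext hne)
    refine Finset.sum_pos' (fun i _ => ?_) ⟨k, Finset.mem_univ k, ?_⟩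
    · have h3 := (hvq i).le
      have h4 : (0 : ℚ) ≤ ((∑ j, cart M i j * v j : ℤ) : ℚ) := by exact_mod_cast (hc i).le
      positivity
    · have h3 := hvq k
      have h4 : (0 : ℚ) < ((∑ j, cart M k j * v j : ℤ) : ℚ) := by exact_mod_cast (hc k)
      have h5 : x k ≠ 0 := by
        rw [hx]
        exact div_ne_zero (by exact_mod_cast hk) h3.ne'
      positivity
  have : (0 : ℚ) < ((∑ i, ∑ j, cart M i j * a i * a j : ℤ) : ℚ) := by
    rw [key]
    linarith
  exact_mod_cast this

/-- Relabelling. -/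
theorem posDef_of_reindex {B' : Type*} [Fintype B'] [DecidableEq B'] (e : B ≃ B')
    (h : PosDef (M.reindex e)) : PosDef M := by
  have hM : ∀ i j, M i j = M.reindex e (e i) (e j) := fun i j => by
    rw [CoxeterMatrix.reindex_apply, e.symm_apply_apply, e.symm_apply_apply]
  have hc : ∀ i j, cart M i j = cart (M.reindex e) (e i) (e j) := fun i j => by
    unfold cart
    rw [← hM]
    by_cases h : i = j
    · rw [if_pos h, if_pos (by rw [h])]
    · rw [if_neg h, if_neg (fun h' => h (e.injective h'))]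
  refine ⟨fun i j hij => ?_, fun a ha => ?_⟩
  · rw [hM]
    exact h.sl _ _ (fun h' => hij (e.injective h'))
  · have h1 := h.pos (fun i => a (e.symm i)) (fun h0 => ha (by
      funext i
      have := congrFun h0 (e i)
      simpa using this))
    have h2 : ∑ i, ∑ j, cart M i j * a i * a j =
        ∑ i, ∑ j, cart (M.reindex e) i j * a (e.symm i) * a (e.symm j) := by
      rw [← Equiv.sum_comp e]
      refine Finset.sum_congr rfl fun i _ => ?_
      rw [← Equiv.sum_comp e]
      refine Finset.sum_congr rfl fun j _ => ?_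
      rw [hc, e.symm_apply_apply, e.symm_apply_apply]
    rw [h2]
    exact h1

/-- The criterion with neighbour sums. -/
theorem cart_sum_pos (v : B → ℤ) (i : B)
    (hc : ∑ j, (if M i j = 3 then v j else 0) < 2 * v i) : 0 < ∑ j, cart M i j * v j := by
  have : ∑ j, cart M i j * v j = 2 * v i - ∑ j, (if M i j = 3 then v j else 0) := by
    have e1 : ∀ j, cart M i j * v j = (if j = i then 2 * v i else 0) - (if M i j = 3 then v j else 0) := by
      intro j
      unfold cart
      by_cases h : i = j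
      · subst h
        have h1 : M i i = 1 := M.diagonal i
        rw [if_pos rfl, if_pos rfl, if_neg (by rw [h1]; norm_num)]
        ring
      · rw [if_neg h, if_neg (Ne.symm h)]
        split_ifs <;> ring
    rw [Finset.sum_congr rfl (fun j _ => e1 j), Finset.sum_sub_distrib, Finset.sum_ite_eq']
    simp
  rw [this]
  linarith

end gen

/-- A sum over the neighbours is bounded by the sum over a larger set. -/
theorem nb_le (n : ℕ) (p : ℕ → Prop) [DecidablePred p] (f : ℕ → ℤ) (T : Finset ℕ)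
    (hT : ∀ t < n, p t → t ∈ T) (hf : ∀ t ∈ T, 0 ≤ f t) :
    ∑ j : Fin n, (if p j then f j else 0) ≤ ∑ t ∈ T, f t := by
  rw [Fin.sum_univ_eq_sum_range (fun t => if p t then f t else 0) n, ← Finset.sum_filter]
  refine Finset.sum_le_sum_of_subset_of_nonneg ?_ (fun t ht _ => hf t ht)
  intro t ht
  rw [Finset.mem_filter, Finset.mem_range] at ht
  exact hT t ht.1 ht.2

theorem posDef_A (n : ℕ) : PosDef (CoxeterMatrix.A n) := by
  have hA : ∀ i j : Fin n, CoxeterMatrix.A n i j = if i = j then 1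
      else (if (j : ℕ) + 1 = i ∨ (i : ℕ) + 1 = j then 3 else 2) := fun i j => rfl
  have sl : ∀ i j : Fin n, i ≠ j → CoxeterMatrix.A n i j = 2 ∨ CoxeterMatrix.A n i j = 3 := by
    intro i j hij
    rw [hA, if_neg hij]
    split_ifs <;> simp
  have h3 : ∀ i j : Fin n, CoxeterMatrix.A n i j = 3 ↔ ((j : ℕ) + 1 = i ∨ (i : ℕ) + 1 = j) := by
    intro i j
    rw [hA]
    by_cases h : i = j
    · rw [if_pos h]
      subst h
      constructor
      · intro h
        omega
      · rintro (h | h) <;> omega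
    · rw [if_neg h]
      split_ifs with h' <;> simp [h']
  refine posDef_of_vec _ sl (fun i => ((i : ℕ) + 1) * (n - (i : ℕ))) ?_ ?_
  · intro i
    have : ((i : ℕ) : ℤ) < n := by exact_mod_cast i.2
    have h0 : (0 : ℤ) ≤ ((i : ℕ) : ℤ) := by positivity
    nlinarith
  · intro i
    refine cart_sum_pos _ _ i ?_
    have hi : ((i : ℕ) : ℤ) < n := by exact_mod_cast i.2
    have h0 : (0 : ℤ) ≤ ((i : ℕ) : ℤ) := by positivity
    have hle : ∑ j : Fin n, (if CoxeterMatrix.A n i j = 3 then
        ((((j : ℕ) : ℤ) + 1) * (n - (j : ℕ))) else 0) =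
        ∑ j : Fin n, (if ((j : ℕ) + 1 = i ∨ (i : ℕ) + 1 = j) then
        ((((j : ℕ) : ℤ) + 1) * (n - (j : ℕ))) else 0) :=
      Finset.sum_congr rfl fun j _ => if_congr (h3 i j) rfl rfl
    rw [hle]
    by_cases hi0 : (i : ℕ) = 0
    · have := nb_le n (fun t => t + 1 = i ∨ (i : ℕ) + 1 = t) (fun t => ((t : ℤ) + 1) * (n - t)) {1}
        (by
          intro t _ h
          simp only [Finset.mem_singleton]
          omega) (by
          intro t ht
          simp only [Finset.mem_singleton] at ht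
          subst ht
          push_cast
          have : (1 : ℤ) ≤ n := by omega
          nlinarith)
      refine this.trans_lt ?_
      simp only [Finset.sum_singleton, hi0]
      push_cast
      linarith
    · have := nb_le n (fun t => t + 1 = i ∨ (i : ℕ) + 1 = t) (fun t => ((t : ℤ) + 1) * (n - t))
        {(i : ℕ) - 1, (i : ℕ) + 1}
        (by
          intro t _ h
          simp only [Finset.mem_insert, Finset.mem_singleton]
          omega) (by
          intro t ht
          simp only [Finset.mem_insert, Finset.mem_singleton] at ht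
          have h1 : (0 : ℤ) ≤ n - t := by omega
          positivity)
      refine this.trans_lt ?_
      rw [Finset.sum_pair (by omega)]
      have : (((i : ℕ) - 1 : ℕ) : ℤ) = (i : ℕ) - 1 := by omega
      rw [this]
      push_cast
      nlinarith

theorem posDef_D (n : ℕ) (hn : 4 ≤ n) : PosDef (matD n) := by
  have hA : ∀ i j : Fin n, matD n i j = if i = j then 1
      else if ((i : ℕ) = 0 ∧ (j : ℕ) = 2) ∨ ((j : ℕ) = 0 ∧ (i : ℕ) = 2) ∨
        (1 ≤ (i : ℕ) ∧ (i : ℕ) + 1 = j) ∨ (1 ≤ (j : ℕ) ∧ (j : ℕ) + 1 = i) then 3 else 2 :=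
    fun i j => rfl
  have sl : ∀ i j : Fin n, i ≠ j → matD n i j = 2 ∨ matD n i j = 3 := by
    intro i j hij
    rw [hA, if_neg hij]
    split_ifs <;> simp
  have h3 : ∀ i j : Fin n, matD n i j = 3 ↔ (((i : ℕ) = 0 ∧ (j : ℕ) = 2) ∨ ((j : ℕ) = 0 ∧ (i : ℕ) = 2) ∨
        (1 ≤ (i : ℕ) ∧ (i : ℕ) + 1 = j) ∨ (1 ≤ (j : ℕ) ∧ (j : ℕ) + 1 = i)) := by
    intro i j
    rw [hA]
    by_cases h : i = j
    · rw [if_pos h]
      subst h
      constructor
      · intro h
        omega
      · rintro h
        omega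
    · rw [if_neg h]
      split_ifs with h' <;> simp [h']
  let f : ℕ → ℤ := fun t => if t ≤ 1 then n * (n - 1) else 2 * (n - t) * (n + t - 1)
  have hf0 : ∀ t, t ≤ n → 0 ≤ f t := by
    intro t ht
    have h1 : (t : ℤ) ≤ n := by exact_mod_cast ht
    have h2 : (4 : ℤ) ≤ n := by exact_mod_cast hn
    simp only [f]
    split_ifs
    · nlinarith
    · have : (0 : ℤ) ≤ n - t := by linarith
      have h3 : (0 : ℤ) ≤ n + t - 1 := by linarith
      positivity
  refine posDef_of_vec _ sl (fun i => f i) ?_ ?_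
  · intro i
    have h1 : ((i : ℕ) : ℤ) < n := by exact_mod_cast i.2
    have h2 : (4 : ℤ) ≤ n := by exact_mod_cast hn
    simp only [f]
    split_ifs
    · nlinarith
    · have : (0 : ℤ) < n - (i : ℕ) := by linarith
      have h3 : (0 : ℤ) < n + (i : ℕ) - 1 := by linarith
      positivity
  · intro i
    refine cart_sum_pos _ _ i ?_
    have hi : ((i : ℕ) : ℤ) < n := by exact_mod_cast i.2
    have hi' := i.2
    have h4 : (4 : ℤ) ≤ n := by exact_mod_cast hn
    have hle : ∑ j : Fin n, (if matD n i j = 3 then f j else 0) =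
        ∑ j : Fin n, (if (((i : ℕ) = 0 ∧ (j : ℕ) = 2) ∨ ((j : ℕ) = 0 ∧ (i : ℕ) = 2) ∨
        (1 ≤ (i : ℕ) ∧ (i : ℕ) + 1 = j) ∨ (1 ≤ (j : ℕ) ∧ (j : ℕ) + 1 = i)) then f j else 0) :=
      Finset.sum_congr rfl fun j _ => if_congr (h3 i j) rfl rfl
    rw [hle]
    have main : ∀ T : Finset ℕ, (∀ t < n, (((i : ℕ) = 0 ∧ t = 2) ∨ (t = 0 ∧ (i : ℕ) = 2) ∨
        (1 ≤ (i : ℕ) ∧ (i : ℕ) + 1 = t) ∨ (1 ≤ t ∧ t + 1 = i)) → t ∈ T) → (∀ t ∈ T, t ≤ n) →
        ∑ t ∈ T, f t < 2 * f i →
        ∑ j : Fin n, (if (((i : ℕ) = 0 ∧ (j : ℕ) = 2) ∨ ((j : ℕ) = 0 ∧ (i : ℕ) = 2) ∨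
        (1 ≤ (i : ℕ) ∧ (i : ℕ) + 1 = j) ∨ (1 ≤ (j : ℕ) ∧ (j : ℕ) + 1 = i)) then f j else 0) < 2 * f i := by
      intro T hT hT2 hT3
      exact (nb_le n (fun t => (((i : ℕ) = 0 ∧ t = 2) ∨ (t = 0 ∧ (i : ℕ) = 2) ∨
        (1 ≤ (i : ℕ) ∧ (i : ℕ) + 1 = t) ∨ (1 ≤ t ∧ t + 1 = i))) f T hT
        (fun t ht => hf0 t (hT2 t ht))).trans_lt hT3
    by_cases c1 : (i : ℕ) ≤ 1
    · refine main {2} (fun t _ h => ?_) (fun t ht => ?_) ?_
      · simp only [Finset.mem_singleton]
        omega
      · simp only [Finset.mem_singleton] at ht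
        omega
      · simp only [Finset.sum_singleton, f, if_pos c1]
        norm_num
        nlinarith
    · by_cases c2 : (i : ℕ) = 2
      · refine main {0, 1, 3} (fun t _ h => ?_) (fun t ht => ?_) ?_
        · simp only [Finset.mem_insert, Finset.mem_singleton]
          omega
        · simp only [Finset.mem_insert, Finset.mem_singleton] at ht
          omega
        · rw [c2]
          simp [f]
          nlinarith
      · refine main {(i : ℕ) - 1, (i : ℕ) + 1} (fun t _ h => ?_) (fun t ht => ?_) ?_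
        · simp only [Finset.mem_insert, Finset.mem_singleton]
          omega
        · simp only [Finset.mem_insert, Finset.mem_singleton] at ht
          omega
        · rw [Finset.sum_pair (by omega)]
          have e : (((i : ℕ) - 1 : ℕ) : ℤ) = (i : ℕ) - 1 := by omega
          simp only [f, if_neg c1, if_neg (show ¬ ((i : ℕ) - 1 ≤ 1) by omega),
            if_neg (show ¬ ((i : ℕ) + 1 ≤ 1) by omega), e]
          push_cast
          nlinarith

theorem posDef_E6 : PosDef CoxeterMatrix.E₆ :=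
  posDef_of_vec _ (by intro i j; fin_cases i <;> fin_cases j <;> decide) ![16, 22, 30, 42, 30, 16] (by decide) (by decide)

theorem posDef_E7 : PosDef CoxeterMatrix.E₇ :=
  posDef_of_vec _ (by intro i j; fin_cases i <;> fin_cases j <;> decide) ![34, 49, 66, 96, 75, 52, 27] (by decide) (by decide)

theorem posDef_E8 : PosDef CoxeterMatrix.E₈ :=
  posDef_of_vec _ (by intro i j; fin_cases i <;> fin_cases j <;> decide) ![92, 136, 182, 270, 220, 168, 114, 58] (by decide) (by decide)

/-- Module PD. -/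
theorem pd_of_isADE {B : Type*} [Fintype B] [DecidableEq B] (M : CoxeterMatrix B) (h : IsADE M) :
    PosDef M := by
  rcases h with ⟨n, -, e, he⟩ | ⟨n, hn, e, he⟩ | ⟨e, he⟩ | ⟨e, he⟩ | ⟨e, he⟩
  · exact posDef_of_reindex M e (he ▸ posDef_A n)
  · exact posDef_of_reindex M e (he ▸ posDef_D n hn)
  · exact posDef_of_reindex M e (he ▸ posDef_E6)
  · exact posDef_of_reindex M e (he ▸ posDef_E7)
  · exact posDef_of_reindex M e (he ▸ posDef_E8)

end Pool.Agent.H11.ZDE
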